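import Pool.Agent.Lib.MP_f7d7fe_co.Step

namespace Pool.Agent.Lib.MP_f7d7fe_co

open Function

lemma good_of_bool {G ι : Type} [AddCommGroup G] (c : G → ι) (h1 : ∀ i, ∃ x, c x = i)
    (h2 : ∀ x y z, c x = c y → c y = c z → c (x - y + z) = c x)
    (h3 : ∀ I : ι → Bool, (∀ x, I (c x) = true → ∀ y, I (c y) = true → ∀ z, I (c z) = true →
      I (c (x - y + z)) = true) → (∀ i j, I i = true → I j = true → i = j) ∨ ∀ i, I i = true) :
    Good c := by
  classical
  refine ⟨h1, h2, fun I hI => ?_⟩
  have := h3 (fun i => decide (I i)) (by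
    intro x hx y hy z hz
    simp only [decide_eq_true_eq] at hx hy hz ⊢
    exact hI x y z hx hy hz)
  simpa only [decide_eq_true_eq] using this

/-- The colouring with four classes. -/
def col4 (p : ZMod 2 × ZMod 2 × ZMod 2) : Fin 4 :=
  if p.2 = 0 then 0 else if p.1 = 0 ∧ p.2.1 = 1 then 1 else if p.1 = 1 ∧ p.2.2 = 1 then 2 else 3

/-- The colouring with seven classes. -/
def col7 (p : ZMod 3 × ZMod 2 × ZMod 2) : Fin 7 :=
  if p.2 = 0 then 0 else
    if p.1 = 0 then (if p.2 = (0, 1) then 1 else 2) else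
      if p.1 = 1 then (if p.2 = (1, 0) then 3 else 4) else (if p.2 = (1, 1) then 5 else 6)

set_option synthInstance.maxSize 2000 in
lemma marked4 : Marked col4 := by
  refine ⟨good_of_bool _ (by decide +kernel) (by decide +kernel) (by decide +kernel),
    AddMonoidHom.snd _ _, 0, fun u => ⟨(0, u), rfl⟩, ?_⟩
  change ∀ x : ZMod 2 × ZMod 2 × ZMod 2, col4 x = 0 ↔ x.2 = 0
  decide +kernel

set_option synthInstance.maxSize 2000 in
lemma marked7 : Marked col7 := by
  refine ⟨good_of_bool _ (by decide +kernel) (by decide +kernel) (by decide +kernel),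
    AddMonoidHom.snd _ _, 0, fun u => ⟨(0, u), rfl⟩, ?_⟩
  change ∀ x : ZMod 3 × ZMod 2 × ZMod 2, col7 x = 0 ↔ x.2 = 0
  decide +kernel

lemma good1 : Good (id : ZMod 1 → ZMod 1) :=
  good_of_bool _ (by decide +kernel) (by decide +kernel) (by decide +kernel)

lemma good2 : Good (id : ZMod 2 → ZMod 2) :=
  good_of_bool _ (by decide +kernel) (by decide +kernel) (by decide +kernel)

lemma good3 : Good (id : ZMod 3 → ZMod 3) :=
  good_of_bool _ (by decide +kernel) (by decide +kernel) (by decide +kernel)

lemma good5 : Good (id : ZMod 5 → ZMod 5) :=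
  good_of_bool _ (by decide +kernel) (by decide +kernel) (by decide +kernel)

/-- There is a marked colouring of a finite abelian group with `n` classes. -/
def HasMarked (n : ℕ) : Prop :=
  ∃ (G ι : Type) (_ : AddCommGroup G) (_ : Finite G) (_ : Finite ι) (c : G → ι),
    Nat.card ι = n ∧ Marked c

/-- There is a good colouring of a finite abelian group with `n` classes. -/
def HasGood (n : ℕ) : Prop :=
  ∃ (G ι : Type) (_ : AddCommGroup G) (_ : Finite G) (_ : Finite ι) (c : G → ι),
    Nat.card ι = n ∧ Good c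

lemma HasMarked.step {n : ℕ} (h : HasMarked n) : HasMarked (n + 2) := by
  obtain ⟨G, ι, _, _, _, c, hn, hc⟩ := h
  obtain ⟨c', hc'⟩ := marked_step c hc
  exact ⟨ZMod 2 × G, ι ⊕ ZMod 2, inferInstance, inferInstance, inferInstance, c',
    by simp [hn], hc'⟩

lemma HasMarked.good {n : ℕ} (h : HasMarked n) : HasGood n := by
  obtain ⟨G, ι, _, _, _, c, hn, hc⟩ := h
  exact ⟨G, ι, inferInstance, inferInstance, inferInstance, c, hn, hc.1⟩

lemma HasMarked.iter {n : ℕ} (h : HasMarked n) (k : ℕ) : HasMarked (n + 2 * k) := by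
  induction k with
  | zero => simpa using h
  | succ k ih => exact ih.step

theorem hasGood (n : ℕ) (hn : 1 ≤ n) : HasGood n := by
  have h4 : HasMarked 4 := ⟨_, _, inferInstance, inferInstance, inferInstance, col4, by simp, marked4⟩
  have h7 : HasMarked 7 := ⟨_, _, inferInstance, inferInstance, inferInstance, col7, by simp, marked7⟩
  by_cases h1 : n = 1
  · subst h1
    exact ⟨_, _, inferInstance, inferInstance, inferInstance, id, by simp, good1⟩
  by_cases h2 : n = 2
  · subst h2
    exact ⟨_, _, inferInstance, inferInstance, inferInstance, id, by simp, good2⟩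
  by_cases h3 : n = 3
  · subst h3
    exact ⟨_, _, inferInstance, inferInstance, inferInstance, id, by simp, good3⟩
  by_cases h5 : n = 5
  · subst h5
    exact ⟨_, _, inferInstance, inferInstance, inferInstance, id, by simp, good5⟩
  rcases Nat.even_or_odd' n with ⟨k, rfl | rfl⟩
  · have := (h4.iter (k - 2)).good
    rwa [show 4 + 2 * (k - 2) = 2 * k by omega] at this
  · have := (h7.iter (k - 3)).good
    rwa [show 7 + 2 * (k - 3) = 2 * k + 1 by omega] at this

/-- Pull back to `ℤ^d`: a good colouring of `ℤ^d` by `Fin n` that is invariant under a subgroup of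
finite index. -/
theorem exists_int (n : ℕ) (hn : 1 ≤ n) : ∃ d : ℕ, 1 ≤ d ∧ ∃ (c : (Fin d → ℤ) → Fin n)
    (K : AddSubgroup (Fin d → ℤ)), K.FiniteIndex ∧ Good c ∧ ∀ x, ∀ k ∈ K, c (x + k) = c x := by
  classical
  obtain ⟨G, ι, _, _, _, c, hcard, hsurj, haff, hirr⟩ := hasGood n hn
  have eι : ι ≃ Fin n := hcard ▸ Finite.equivFin ι
  let d := Nat.card G
  let eG : G ≃ Fin d := Finite.equivFin G
  let π : (Fin d → ℤ) →+ G :=
    { toFun := fun x => ∑ i, x i • eG.symm i
      map_zero' := by simp
      map_add' := by intro x y; simp [add_smul, Finset.sum_add_distrib] }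
  have hπ : Surjective π := by
    intro g
    refine ⟨Pi.single (eG g) 1, ?_⟩
    change ∑ i, (Pi.single (eG g) (1 : ℤ) : Fin d → ℤ) i • eG.symm i = g
    rw [Finset.sum_eq_single (eG g)]
    · simp
    · intro b _ hb; simp [hb]
    · simp
  refine ⟨d, Nat.card_pos, fun x => eι (c (π x)), π.ker, inferInstance, ⟨?_, ?_, ?_⟩, ?_⟩
  · exact eι.surjective.comp (hsurj.comp hπ)
  · intro x y z h1 h2
    simp only [EmbeddingLike.apply_eq_iff_eq, map_add, map_sub] at h1 h2 ⊢
    exact haff _ _ _ h1 h2
  · intro I hI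
    rcases hirr (fun i => I (eι i)) (by
      intro x y z hx hy hz
      obtain ⟨x, rfl⟩ := hπ x
      obtain ⟨y, rfl⟩ := hπ y
      obtain ⟨z, rfl⟩ := hπ z
      have := hI x y z hx hy hz
      simpa only [map_add, map_sub] using this) with h | h
    · left
      intro i j hi hj
      obtain ⟨i, rfl⟩ := eι.surjective i
      obtain ⟨j, rfl⟩ := eι.surjective j
      rw [h i j hi hj]
    · right
      intro i
      obtain ⟨i, rfl⟩ := eι.surjective i
      exact h i
  · intro x k hk
    simp only [map_add, (AddMonoidHom.mem_ker).1 hk, add_zero]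

end Pool.Agent.Lib.MP_f7d7fe_co
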