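import Mathlib

namespace Pool.Agent.Lib.MP_f7d7fe_co

open Function

/-- A colouring of an abelian group whose colour classes are cosets and such that no union of
at least two, but not all, classes is closed under `x - y + z`. -/
def Good {G ι : Type} [AddCommGroup G] (c : G → ι) : Prop :=
  Surjective c ∧ (∀ x y z, c x = c y → c y = c z → c (x - y + z) = c x) ∧
    ∀ I : ι → Prop, (∀ x y z, I (c x) → I (c y) → I (c z) → I (c (x - y + z))) →
      (∀ i j, I i → I j → i = j) ∨ ∀ i, I i

/-- A good colouring with a class that is the kernel of a surjection onto the Klein group. -/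
def Marked {G ι : Type} [AddCommGroup G] (c : G → ι) : Prop :=
  Good c ∧ ∃ (φ : G →+ ZMod 2 × ZMod 2) (i0 : ι), Surjective φ ∧ ∀ x, c x = i0 ↔ φ x = 0

open Classical in
/-- The colouring of the step `n ↦ n + 2`. -/
noncomputable def stepCol {G ι : Type} [AddCommGroup G] (c : G → ι) (φ : G →+ ZMod 2 × ZMod 2) :
    ZMod 2 × G → ι ⊕ ZMod 2 :=
  fun p => if p.1 = 1 ∨ φ p.2 = 0 then Sum.inl (c p.2) else Sum.inr (φ p.2).1

section
variable {G ι : Type} [AddCommGroup G] (c : G → ι) (φ : G →+ ZMod 2 × ZMod 2)

lemma stepCol_one (x : G) : stepCol c φ (1, x) = Sum.inl (c x) := by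
  simp [stepCol]

lemma stepCol_ker (e : ZMod 2) (x : G) (h : φ x = 0) : stepCol c φ (e, x) = Sum.inl (c x) := by
  simp [stepCol, h]

lemma stepCol_zero (x : G) (h : φ x ≠ 0) : stepCol c φ (0, x) = Sum.inr (φ x).1 := by
  simp [stepCol, h]

end

lemma zmod2_cases (e : ZMod 2) : e = 0 ∨ e = 1 := by
  revert e; decide

theorem marked_step {G ι : Type} [AddCommGroup G] (c : G → ι) (hc : Marked c) :
    ∃ c' : ZMod 2 × G → ι ⊕ ZMod 2, Marked c' := by
  obtain ⟨⟨hsurj, haff, hirr⟩, φ, i0, hφ, hi0⟩ := hc
  have h0 : c 0 = i0 := (hi0 0).2 (map_zero φ)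
  refine ⟨stepCol c φ, ⟨?_, ?_, ?_⟩, φ.comp (AddMonoidHom.snd _ _), Sum.inl i0, ?_, ?_⟩
  · rintro (i | j)
    · obtain ⟨x, rfl⟩ := hsurj i
      exact ⟨(1, x), stepCol_one c φ x⟩
    · obtain ⟨x, hx⟩ := hφ (j, 1)
      refine ⟨(0, x), ?_⟩
      rw [stepCol_zero c φ x (by rw [hx]; simp), hx]
  · rintro ⟨a, x⟩ ⟨b, y⟩ ⟨d, z⟩ hxy hyz
    have key : ∀ (e : ZMod 2) (w : G), (∃ i, stepCol c φ (e, w) = Sum.inl i) →
        stepCol c φ (e, w) = Sum.inl (c w) ∧ (e = 1 ∨ φ w = 0) := by
      intro e w ⟨i, hi⟩
      by_cases h : e = 1 ∨ φ w = 0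
      · exact ⟨by simp only [stepCol, h, if_true], h⟩
      · simp [stepCol, h] at hi
    have key2 : ∀ (e : ZMod 2) (w : G), (∃ j, stepCol c φ (e, w) = Sum.inr j) →
        stepCol c φ (e, w) = Sum.inr (φ w).1 ∧ e = 0 ∧ φ w ≠ 0 := by
      intro e w ⟨i, hi⟩
      by_cases h : e = 1 ∨ φ w = 0
      · simp [stepCol, h] at hi
      · refine ⟨by simp only [stepCol, h, if_false], ?_, fun h' => h (Or.inr h')⟩
        rcases zmod2_cases e with h' | h'
        · exact h'
        · exact absurd (Or.inl h') h
    rcases hx : stepCol c φ (a, x) with i | j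
    · obtain ⟨e1, h1⟩ := key a x ⟨i, hx⟩
      obtain ⟨e2, h2⟩ := key b y ⟨i, hxy ▸ hx⟩
      obtain ⟨e3, h3⟩ := key d z ⟨i, hyz ▸ hxy ▸ hx⟩
      have c12 : c x = c y := by
        have := e1.symm.trans (hxy.trans e2); simpa using this
      have c23 : c y = c z := by
        have := e2.symm.trans (hyz.trans e3); simpa using this
      have hw := haff x y z c12 c23
      have hi : i = c x := by
        have := hx.symm.trans e1; simpa using this
      by_cases hk : φ x = 0
      · have hk' : φ (x - y + z) = 0 := (hi0 _).1 (hw.trans ((hi0 _).2 hk))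
        have : ((a, x) - (b, y) + (d, z) : ZMod 2 × G) = (a - b + d, x - y + z) := rfl
        rw [this, stepCol_ker c φ _ _ hk', hw, hi]
      · have hy : φ y ≠ 0 := fun h => hk ((hi0 _).1 (c12.trans ((hi0 _).2 h)))
        have hz : φ z ≠ 0 := fun h => hy ((hi0 _).1 (c23.trans ((hi0 _).2 h)))
        have ha : a = 1 := h1.resolve_right hk
        have hb : b = 1 := h2.resolve_right hy
        have hd : d = 1 := h3.resolve_right hz
        subst ha hb hd
        have : (((1 : ZMod 2), x) - (1, y) + (1, z) : ZMod 2 × G) = (1, x - y + z) := by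
          exact Prod.ext (by first | rfl | decide | (dsimp only [Prod.fst_add, Prod.fst_sub]; decide)) (by simp)
        rw [this, stepCol_one, hw, hi]
    · obtain ⟨e1, ha, h1⟩ := key2 a x ⟨j, hx⟩
      obtain ⟨e2, hb, h2⟩ := key2 b y ⟨j, hxy ▸ hx⟩
      obtain ⟨e3, hd, h3⟩ := key2 d z ⟨j, hyz ▸ hxy ▸ hx⟩
      subst ha hb hd
      have c12 : (φ x).1 = (φ y).1 := by
        have := e1.symm.trans (hxy.trans e2); simpa using this
      have c23 : (φ y).1 = (φ z).1 := by
        have := e2.symm.trans (hyz.trans e3); simpa using this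
      have hj : j = (φ x).1 := by
        have := hx.symm.trans e1; simpa using this
      have : (((0 : ZMod 2), x) - (0, y) + (0, z) : ZMod 2 × G) = (0, x - y + z) := by
        exact Prod.ext (by first | rfl | decide | (dsimp only [Prod.fst_add, Prod.fst_sub]; decide)) (by simp)
      have hfin : ∀ u v w : ZMod 2 × ZMod 2, u ≠ 0 → v ≠ 0 → w ≠ 0 → u.1 = v.1 → v.1 = w.1 →
          u - v + w ≠ 0 ∧ (u - v + w).1 = u.1 := by decide
      obtain ⟨k1, k2⟩ := hfin _ _ _ h1 h2 h3 c12 c23
      rw [this, stepCol_zero c φ _ (by simpa using k1), hj]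
      simp only [map_add, map_sub, k2]
  · intro I hI
    have hI1 : ∀ x y z, I (Sum.inl (c x)) → I (Sum.inl (c y)) → I (Sum.inl (c z)) →
        I (Sum.inl (c (x - y + z))) := by
      intro x y z hx hy hz
      have := hI (1, x) (1, y) (1, z) (by rwa [stepCol_one]) (by rwa [stepCol_one])
        (by rwa [stepCol_one])
      have e : (((1 : ZMod 2), x) - (1, y) + (1, z) : ZMod 2 × G) = (1, x - y + z) := by
        exact Prod.ext (by first | rfl | decide | (dsimp only [Prod.fst_add, Prod.fst_sub]; decide)) (by simp)
      rwa [e, stepCol_one] at this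
    rcases hirr (fun i => I (Sum.inl i)) hI1 with hsub | hall
    · left
      -- (b)
      have hb : ∀ j, I (Sum.inr j) → I (Sum.inl i0) → False := by
        intro j hj hi
        obtain ⟨x, hx⟩ := hφ (j, 1)
        have hx0 : φ x ≠ 0 := by rw [hx]; simp
        have := hI (1, 0) (0, 0) (0, x) (by rwa [stepCol_one, h0])
          (by rwa [stepCol_ker c φ _ _ (map_zero φ), h0])
          (by rwa [stepCol_zero c φ _ hx0, hx])
        have e : (((1 : ZMod 2), (0 : G)) - (0, 0) + (0, x) : ZMod 2 × G) = (1, x) := by
          exact Prod.ext (by first | rfl | decide | (dsimp only [Prod.fst_add, Prod.fst_sub]; decide)) (by simp)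
        rw [e, stepCol_one] at this
        exact hx0 ((hi0 _).1 (hsub _ _ this hi))
      -- (a)
      have ha : I (Sum.inr 0) → I (Sum.inr 1) → False := by
        intro hj0 hj1
        obtain ⟨x, hx⟩ := hφ (0, 1)
        obtain ⟨y, hy⟩ := hφ (1, 0)
        obtain ⟨z, hz⟩ := hφ (1, 1)
        have := hI (0, x) (0, y) (0, z)
          (by rwa [stepCol_zero c φ _ (by rw [hx]; decide), hx])
          (by rwa [stepCol_zero c φ _ (by rw [hy]; decide), hy])
          (by rwa [stepCol_zero c φ _ (by rw [hz]; decide), hz])
        have e : (((0 : ZMod 2), x) - (0, y) + (0, z) : ZMod 2 × G) = (0, x - y + z) := by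
          exact Prod.ext (by first | rfl | decide | (dsimp only [Prod.fst_add, Prod.fst_sub]; decide)) (by simp)
        have hk : φ (x - y + z) = 0 := by
          simp only [map_add, map_sub, hx, hy, hz]; decide
        rw [e, stepCol_ker c φ _ _ hk, (hi0 _).2 hk] at this
        exact hb 0 hj0 this
      have ha' : ∀ j k, I (Sum.inr j) → I (Sum.inr k) → j = k := by
        intro j k hj hk
        rcases zmod2_cases j with rfl | rfl <;> rcases zmod2_cases k with rfl | rfl
        · rfl
        · exact (ha hj hk).elim
        · exact (ha hk hj).elim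
        · rfl
      -- (c)
      have hc : ∀ j i, I (Sum.inr j) → I (Sum.inl i) → False := by
        intro j i hj hi
        by_cases hii : i = i0
        · exact hb j hj (hii ▸ hi)
        obtain ⟨b, rfl⟩ := hsurj i
        have fwd : ∀ x y, φ x ≠ 0 → φ y ≠ 0 → (φ x).1 = j → (φ y).1 = j →
            c (b - x + y) = c b := by
          intro x y hx hy hxj hyj
          have := hI (1, b) (0, x) (0, y) (by rwa [stepCol_one])
            (by rwa [stepCol_zero c φ _ hx, hxj]) (by rwa [stepCol_zero c φ _ hy, hyj])
          have e : (((1 : ZMod 2), b) - (0, x) + (0, y) : ZMod 2 × G) = (1, b - x + y) := by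
            exact Prod.ext (by first | rfl | decide | (dsimp only [Prod.fst_add, Prod.fst_sub]; decide)) (by simp)
          rw [e, stepCol_one] at this
          exact hsub _ _ this hi
        have bwd : ∀ x b', φ x ≠ 0 → (φ x).1 = j → c b' = c b →
            φ (x - b + b') ≠ 0 ∧ (φ (x - b + b')).1 = j := by
          intro x b' hx hxj hb'
          have := hI (0, x) (1, b) (1, b') (by rwa [stepCol_zero c φ _ hx, hxj])
            (by rwa [stepCol_one]) (by rwa [stepCol_one, hb'])
          have e : (((0 : ZMod 2), x) - (1, b) + (1, b') : ZMod 2 × G) = (0, x - b + b') := by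
            exact Prod.ext (by first | rfl | decide | (dsimp only [Prod.fst_add, Prod.fst_sub]; decide)) (by simp)
          rw [e] at this
          by_cases hk : φ (x - b + b') = 0
          · rw [stepCol_ker c φ _ _ hk, (hi0 _).2 hk] at this
            exact (hb j hj this).elim
          · rw [stepCol_zero c φ _ hk] at this
            exact ⟨hk, ha' _ _ this hj⟩
        have hb0 : φ b ≠ 0 := fun h => hii ((hi0 _).2 h)
        rcases zmod2_cases j with rfl | rfl
        · obtain ⟨x, hx⟩ := hφ (0, 1)
          have hx0 : φ x ≠ 0 := by rw [hx]; decide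
          have tile : ∀ w, c w = c b ↔ φ w = φ b := by
            intro w
            constructor
            · intro hw
              obtain ⟨k1, k2⟩ := bwd x w hx0 (by rw [hx]) hw
              simp only [map_add, map_sub, hx] at k1 k2
              have hfin : ∀ u v : ZMod 2 × ZMod 2, ((0, 1) - u + v ≠ 0) →
                  (((0, 1) : ZMod 2 × ZMod 2) - u + v).1 = 0 → v = u := by decide
              exact hfin _ _ k1 k2
            · intro hw
              have := fwd x (x + w - b) hx0 (by simp [hw, hx0]) (by rw [hx]) (by simp [hw, hx])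
              have e : b - x + (x + w - b) = w := by abel
              rwa [e] at this
          rcases hirr (fun i => i = c b ∨ i = i0) (by
            intro u v w hu hv hw
            rw [tile, hi0] at hu hv hw ⊢
            simp only [map_add, map_sub]
            have hfin : ∀ u v w t : ZMod 2 × ZMod 2, (u = t ∨ u = 0) → (v = t ∨ v = 0) →
                (w = t ∨ w = 0) → (u - v + w = t ∨ u - v + w = 0) := by decide
            exact hfin _ _ _ _ hu hv hw) with h | h
          · exact hii (h _ _ (Or.inl rfl) (Or.inr rfl))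
          · have hfin : ∀ t : ZMod 2 × ZMod 2, ∃ u : ZMod 2 × ZMod 2, u ≠ t ∧ u ≠ 0 := by decide
            obtain ⟨u, hu1, hu2⟩ := hfin (φ b)
            obtain ⟨y, rfl⟩ := hφ u
            rcases h (c y) with h' | h'
            · exact hu1 ((tile _).1 h')
            · exact hu2 ((hi0 _).1 h')
        · obtain ⟨x, hx⟩ := hφ (1, 0)
          have hx0 : φ x ≠ 0 := by rw [hx]; decide
          have tile : ∀ w, c w = c b ↔ (φ w).1 = (φ b).1 := by
            intro w
            constructor
            · intro hw
              obtain ⟨k1, k2⟩ := bwd x w hx0 (by rw [hx]) hw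
              simp only [map_add, map_sub, hx] at k1 k2
              have hfin : ∀ u v : ZMod 2 × ZMod 2,
                  (((1, 0) : ZMod 2 × ZMod 2) - u + v).1 = 1 → v.1 = u.1 := by decide
              exact hfin _ _ k2
            · intro hw
              have hfin : ∀ u v : ZMod 2 × ZMod 2, v.1 = u.1 →
                  ((1, 0) + v - u ≠ 0) ∧ (((1, 0) : ZMod 2 × ZMod 2) + v - u).1 = 1 := by decide
              obtain ⟨k1, k2⟩ := hfin _ _ hw
              have := fwd x (x + w - b) hx0 (by simpa only [map_add, map_sub, hx] using k1)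
                (by rw [hx]) (by simpa only [map_add, map_sub, hx] using k2)
              have e : b - x + (x + w - b) = w := by abel
              rwa [e] at this
          have hb1 : (φ b).1 = 1 := by
            rcases zmod2_cases (φ b).1 with h | h
            · exact absurd (((tile 0).2 (by simp [h])).symm.trans h0) hii
            · exact h
          rcases hirr (fun i => i ≠ c b) (by
            intro u v w hu hv hw
            rw [Ne, tile, hb1] at hu hv hw ⊢
            simp only [map_add, map_sub]
            have hfin : ∀ u v w : ZMod 2 × ZMod 2, ¬ u.1 = 1 → ¬ v.1 = 1 → ¬ w.1 = 1 →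
                ¬ (u - v + w).1 = 1 := by decide
            exact hfin _ _ _ hu hv hw) with h | h
          · obtain ⟨y, hy⟩ := hφ (0, 1)
            have h1 : c y ≠ c b := by
              rw [Ne, tile, hb1, hy]; decide
            have h2 := h _ _ h1 (Ne.symm hii)
            have h3 := (hi0 _).1 h2
            rw [hy] at h3
            revert h3; decide
          · exact h _ rfl
      rintro (i | j) (i' | j') h1 h2
      · rw [hsub _ _ h1 h2]
      · exact (hc _ _ h2 h1).elim
      · exact (hc _ _ h1 h2).elim
      · rw [ha' _ _ h1 h2]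
    · right
      rintro (i | j)
      · exact hall i
      · obtain ⟨x, hx⟩ := hφ (j, 1)
        have hx0 : φ x ≠ 0 := by rw [hx]; simp
        have := hI (0, 0) (1, 0) (1, x) (by rw [stepCol_ker c φ _ _ (map_zero φ)]; exact hall _)
          (by rw [stepCol_one]; exact hall _) (by rw [stepCol_one]; exact hall _)
        have e : (((0 : ZMod 2), (0 : G)) - (1, 0) + (1, x) : ZMod 2 × G) = (0, x) := by
          exact Prod.ext (by first | rfl | decide | (dsimp only [Prod.fst_add, Prod.fst_sub]; decide)) (by simp)
        rwa [e, stepCol_zero c φ _ hx0, hx] at this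
  · intro u
    obtain ⟨x, hx⟩ := hφ u
    exact ⟨(0, x), hx⟩
  · rintro ⟨e, x⟩
    simp only [AddMonoidHom.comp_apply, AddMonoidHom.coe_snd]
    by_cases hk : φ x = 0
    · rw [stepCol_ker c φ _ _ hk, (hi0 _).2 hk]; simp [hk]
    · rcases zmod2_cases e with rfl | rfl
      · rw [stepCol_zero c φ _ hk]; simp [hk]
      · rw [stepCol_one]; simp [hi0, hk]

end Pool.Agent.Lib.MP_f7d7fe_co
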