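import Pool.Agent.Lib.MP_f7d7fe_co.Base

/-! The step `n ↦ n + 2` inside `ℤ × (ℤ/2)²`, so that dimension three is enough. -/

namespace Pool.Agent.Lib.MP_f7d7fe_co

open Function

/-- The Klein group. -/
abbrev Kl := ZMod 2 × ZMod 2

/-- A periodic good colouring of `ℤ × Kl` in which `ℤ × 0` is a class. -/
def Mk {ι : Type} (c : ℤ × Kl → ι) : Prop :=
  Good c ∧ (∃ i0, ∀ x, c x = i0 ↔ x.2 = 0) ∧ ∃ N : ℕ, 0 < N ∧ ∀ t k, c (t + N, k) = c (t, k)

/-- The old colouring on the odd layers, two new classes on the even layers. -/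
def st {ι : Type} (c : ℤ × Kl → ι) : ℤ × Kl → ι ⊕ ZMod 2 :=
  fun p => if p.1 % 2 = 1 ∨ p.2 = 0 then Sum.inl (c (p.1 / 2, p.2)) else Sum.inr p.2.1

theorem good_comap {G H ι : Type} [AddCommGroup G] [AddCommGroup H] {c : H → ι} (hc : Good c)
    (π : G →+ H) (hπ : Surjective π) : Good fun x => c (π x) := by
  obtain ⟨hsurj, haff, hirr⟩ := hc
  refine ⟨hsurj.comp hπ, fun x y z h1 h2 => ?_, fun I hI => hirr I fun x y z hx hy hz => ?_⟩
  · simp only [map_add, map_sub]
    exact haff _ _ _ h1 h2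
  · obtain ⟨x, rfl⟩ := hπ x
    obtain ⟨y, rfl⟩ := hπ y
    obtain ⟨z, rfl⟩ := hπ z
    simpa only [map_add, map_sub] using hI x y z hx hy hz

theorem good_equiv {G ι κ : Type} [AddCommGroup G] {c : G → ι} (hc : Good c) (e : ι ≃ κ) :
    Good fun x => e (c x) := by
  obtain ⟨hsurj, haff, hirr⟩ := hc
  refine ⟨e.surjective.comp hsurj, fun x y z h1 h2 => ?_, fun I hI => ?_⟩
  · exact congrArg e (haff _ _ _ (e.injective h1) (e.injective h2))
  · refine (hirr (fun i => I (e i)) hI).imp (fun h i j hi hj => ?_) fun h i => ?_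
    · obtain ⟨i, rfl⟩ := e.surjective i
      obtain ⟨j, rfl⟩ := e.surjective j
      rw [h i j hi hj]
    · obtain ⟨i, rfl⟩ := e.surjective i
      exact h i

set_option synthInstance.maxSize 2000 in
theorem mk_step {ι : Type} {c : ℤ × Kl → ι} (hc : Mk c) : Mk (st c) := by
  obtain ⟨⟨hsurj, haff, hirr⟩, ⟨i0, hi0⟩, N, hN, hper⟩ := hc
  have od : ∀ t k, st c (2 * t + 1, k) = Sum.inl (c (t, k)) := fun t k => by
    have h1 : (2 * t + 1) % 2 = 1 := by omega
    have h2 : (2 * t + 1) / 2 = t := by omega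
    simp only [st, h1, h2, true_or, if_true]
  have ke : ∀ t, st c (t, 0) = Sum.inl i0 := fun t => by
    simp only [st, or_true, if_true, (hi0 (t / 2, 0)).2 rfl]
  have ev : ∀ t k, k ≠ 0 → st c (2 * t, k) = Sum.inr k.1 := fun t k hk => by
    have h1 : ¬ (2 * t) % 2 = 1 := by omega
    simp only [st, h1, hk, or_self, if_false]
  have cs : ∀ p : ℤ × Kl, (∃ t, p = (t, 0)) ∨ (∃ t k, k ≠ 0 ∧ p = (2 * t + 1, k)) ∨
      ∃ t k, k ≠ 0 ∧ p = (2 * t, k) := fun ⟨t, k⟩ => by
    by_cases hk : k = 0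
    · exact Or.inl ⟨t, by rw [hk]⟩
    · rcases Int.even_or_odd' t with ⟨s, rfl | rfl⟩
      · exact Or.inr (Or.inr ⟨s, k, hk, rfl⟩)
      · exact Or.inr (Or.inl ⟨s, k, hk, rfl⟩)
  have hm : ∀ p, st c p = Sum.inl i0 ↔ p.2 = 0 := fun p => by
    rcases cs p with ⟨t, rfl⟩ | ⟨t, k, hk, rfl⟩ | ⟨t, k, hk, rfl⟩
    · simp [ke]
    · simp [od, hi0]
    · simp [ev t k hk, hk]
  have inv1 : ∀ p i, st c p = Sum.inl i → i ≠ i0 → ∃ t k, p = (2 * t + 1, k) ∧ c (t, k) = i := by
    intro p i h hi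
    rcases cs p with ⟨t, rfl⟩ | ⟨t, k, hk, rfl⟩ | ⟨t, k, hk, rfl⟩
    · exact (hi (Sum.inl.inj ((ke t).symm.trans h)).symm).elim
    · exact ⟨t, k, rfl, Sum.inl.inj ((od t k).symm.trans h)⟩
    · exact absurd ((ev t k hk).symm.trans h) (by simp)
  have inv2 : ∀ p j, st c p = Sum.inr j → ∃ t k, p = (2 * t, k) ∧ k ≠ 0 ∧ k.1 = j := by
    intro p j h
    rcases cs p with ⟨t, rfl⟩ | ⟨t, k, hk, rfl⟩ | ⟨t, k, hk, rfl⟩
    · exact absurd ((ke t).symm.trans h) (by simp)
    · exact absurd ((od t k).symm.trans h) (by simp)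
    · exact ⟨t, k, rfl, hk, Sum.inr.inj ((ev t k hk).symm.trans h)⟩
  have ooo : ∀ (a b d : ℤ) (x y z : Kl), ((2 * a + 1, x) - (2 * b + 1, y) + (2 * d + 1, z) : ℤ × Kl)
      = (2 * (a - b + d) + 1, x - y + z) := fun a b d x y z => Prod.ext (by simp; ring) rfl
  have j1 : ∀ j : ZMod 2, ((j, 1) : Kl) ≠ 0 := by decide
  refine ⟨⟨?_, ?_, ?_⟩, ⟨_, hm⟩, 2 * N, by omega, fun t k => ?_⟩
  · rintro (i | j)
    · obtain ⟨⟨t, k⟩, rfl⟩ := hsurj i
      exact ⟨_, od t k⟩
    · exact ⟨_, ev 0 (j, 1) (j1 j)⟩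
  · intro x y z hxy hyz
    rcases hx : st c x with i | j
    · have hy := hxy.symm.trans hx
      have hz := hyz.symm.trans hy
      by_cases hi : i = i0
      · subst hi
        rw [hm] at hx hy hz ⊢
        simp [hx, hy, hz]
      · obtain ⟨a, x, rfl, h1⟩ := inv1 _ _ hx hi
        obtain ⟨b, y, rfl, h2⟩ := inv1 _ _ hy hi
        obtain ⟨d, z, rfl, h3⟩ := inv1 _ _ hz hi
        rw [ooo, od, ← h1]
        exact congrArg _ (haff (a, x) (b, y) (d, z) (h1.trans h2.symm) (h2.trans h3.symm))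
    · have hy := hxy.symm.trans hx
      have hz := hyz.symm.trans hy
      obtain ⟨a, x, rfl, h1, e1⟩ := inv2 _ _ hx
      obtain ⟨b, y, rfl, h2, e2⟩ := inv2 _ _ hy
      obtain ⟨d, z, rfl, h3, e3⟩ := inv2 _ _ hz
      have hfin : ∀ u v w : Kl, u ≠ 0 → v ≠ 0 → w ≠ 0 → u.1 = v.1 → v.1 = w.1 →
          u - v + w ≠ 0 ∧ (u - v + w).1 = u.1 := by decide
      obtain ⟨k1, k2⟩ := hfin _ _ _ h1 h2 h3 (e1.trans e2.symm) (e2.trans e3.symm)
      have e : ((2 * a, x) - (2 * b, y) + (2 * d, z) : ℤ × Kl) = (2 * (a - b + d), x - y + z) :=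
        Prod.ext (by simp; ring) rfl
      rw [e, ev _ _ k1, k2, e1]
  · intro I hI
    rcases hirr (fun i => I (Sum.inl i)) (fun ⟨a, x⟩ ⟨b, y⟩ ⟨d, z⟩ hx hy hz => by
      have := hI (2 * a + 1, x) (2 * b + 1, y) (2 * d + 1, z) (by rwa [od]) (by rwa [od])
        (by rwa [od])
      rwa [ooo, od] at this) with hsub | hall
    · left
      have hb : ∀ j, I (Sum.inr j) → I (Sum.inl i0) → False := fun j hj hi => by
        have := hI (2 * 0, (j, 1)) (0, 0) (1, 0) (by rwa [ev _ _ (j1 j)]) (by rwa [ke])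
          (by rwa [ke])
        have e : ((2 * 0, (j, 1)) - (0, 0) + (1, 0) : ℤ × Kl) = (2 * 0 + 1, (j, 1)) := by simp
        rw [e, od] at this
        exact j1 j ((hi0 _).1 (hsub _ _ this hi))
      have ha : I (Sum.inr 0) → I (Sum.inr 1) → False := fun h0 h1 => by
        have := hI (2 * 0, (0, 1)) (2 * 0, (1, 0)) (2 * 0, (1, 1)) (by rwa [ev _ _ (by decide)])
          (by rwa [ev _ _ (by decide)]) (by rwa [ev _ _ (by decide)])
        have e : ((2 * 0, (0, 1)) - (2 * 0, (1, 0)) + (2 * 0, (1, 1)) : ℤ × Kl) = (0, 0) := by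
          decide
        rw [e, ke] at this
        exact hb 0 h0 this
      have hc : ∀ j i, I (Sum.inr j) → I (Sum.inl i) → False := fun j i hj hi => by
        by_cases hii : i = i0
        · exact hb j hj (hii ▸ hi)
        obtain ⟨⟨b, k⟩, rfl⟩ := hsurj i
        have hk : k ≠ 0 := fun h => hii ((hi0 _).2 h)
        have fwd : ∀ s, c (s, k) = c (b, k) := fun s => by
          have := hI (2 * b + 1, k) (2 * b, (j, 1)) (2 * s, (j, 1)) (by rwa [od])
            (by rwa [ev _ _ (j1 j)]) (by rwa [ev _ _ (j1 j)])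
          have e : ((2 * b + 1, k) - (2 * b, (j, 1)) + (2 * s, (j, 1)) : ℤ × Kl) =
              (2 * s + 1, k) := Prod.ext (by simp; ring) (by simp)
          rw [e, od] at this
          exact hsub _ _ this hi
        have mv : ∀ t s u, c (t, u) = c (b, k) → c (s, u) = c (b, k) := fun t s u h => by
          have := haff (t, u) (t, k) (s, k) (h.trans (fwd t).symm) ((fwd t).trans (fwd s).symm)
          have e : ((t, u) - (t, k) + (s, k) : ℤ × Kl) = (s, u) := Prod.ext (by simp) (by simp)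
          rw [e] at this
          exact this.trans h
        by_cases h2 : ∃ t u, u ≠ k ∧ c (t, u) = c (b, k)
        · obtain ⟨t, u, huk, hu⟩ := h2
          have hu0 : u ≠ 0 := fun h => hii (hu.symm.trans ((hi0 _).2 h))
          have tile : ∀ w : ℤ × Kl, c w = c (b, k) ↔ w.2 = k ∨ w.2 = u := fun ⟨s, v⟩ => by
            refine ⟨fun h => ?_, ?_⟩
            · by_contra hv
              have hv0 : v ≠ 0 := fun h' => hii (h.symm.trans ((hi0 _).2 h'))
              have hfin : ∀ k u v : Kl, k ≠ 0 → u ≠ 0 → v ≠ 0 → u ≠ k → ¬ (v = k ∨ v = u) →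
                  k - u + v = 0 := by decide
              have := haff (b, k) (t, u) (s, v) hu.symm (hu.trans h.symm)
              exact hii (this.symm.trans ((hi0 _).2 (hfin k u v hk hu0 hv0 huk hv)))
            · rintro (rfl | rfl)
              · exact fwd s
              · exact mv t s _ hu
          have hfin : ∀ k u : Kl, k ≠ 0 → u ≠ 0 → u ≠ k → (k + u ≠ 0 ∧ ¬ (k + u = k ∨ k + u = u)) ∧
              ∀ x y z : Kl, ¬ (x = k ∨ x = u) → ¬ (y = k ∨ y = u) → ¬ (z = k ∨ z = u) →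
                ¬ (x - y + z = k ∨ x - y + z = u) := by decide
          obtain ⟨⟨f1, f2⟩, f3⟩ := hfin k u hk hu0 huk
          rcases hirr (fun i => i ≠ c (b, k)) (fun x y z hx hy hz => by
            rw [Ne, tile] at hx hy hz ⊢
            exact f3 _ _ _ hx hy hz) with h | h
          · exact f1 ((hi0 (0, k + u)).1 (h _ _ (by rwa [Ne, tile]) (Ne.symm hii)))
          · exact h _ rfl
        · have tile : ∀ w : ℤ × Kl, c w = c (b, k) ↔ w.2 = k := fun ⟨s, v⟩ =>
            ⟨fun h => by_contra fun hv => h2 ⟨s, v, hv, h⟩, by rintro rfl; exact fwd s⟩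
          have hfin : ∀ k : Kl, (∃ u : Kl, ¬ (u = k ∨ u = 0)) ∧ ∀ x y z : Kl, (x = k ∨ x = 0) →
              (y = k ∨ y = 0) → (z = k ∨ z = 0) → (x - y + z = k ∨ x - y + z = 0) := by decide
          obtain ⟨⟨u, f1⟩, f2⟩ := hfin k
          rcases hirr (fun i => i = c (b, k) ∨ i = i0) (fun x y z hx hy hz => by
            rw [tile, hi0] at hx hy hz ⊢
            exact f2 _ _ _ hx hy hz) with h | h
          · exact hii (h _ _ (Or.inl rfl) (Or.inr rfl))
          · have := h (c (0, u))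
            rw [tile, hi0] at this
            exact f1 this
      rintro (i | j) (i' | j') h1 h2
      · rw [hsub _ _ h1 h2]
      · exact (hc _ _ h2 h1).elim
      · exact (hc _ _ h1 h2).elim
      · rcases zmod2_cases j with rfl | rfl <;> rcases zmod2_cases j' with rfl | rfl
        · rfl
        · exact (ha h1 h2).elim
        · exact (ha h2 h1).elim
        · rfl
    · right
      rintro (i | j)
      · exact hall i
      · have := hI (2 * 0 + 1, (j, 1)) (1, 0) (0, 0) (by rw [od]; exact hall _)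
          (by rw [ke]; exact hall _) (by rw [ke]; exact hall _)
        have e : ((2 * 0 + 1, (j, 1)) - (1, 0) + (0, 0) : ℤ × Kl) = (2 * 0, (j, 1)) := by simp
        rwa [e, ev _ _ (j1 j)] at this
  · have h1 : (t + (2 * N : ℕ)) % 2 = t % 2 := by push_cast; omega
    have h2 : (t + (2 * N : ℕ)) / 2 = t / 2 + N := by push_cast; omega
    simp only [st, h1, h2, hper]

/-- Reduction of the first coordinate. -/
def red (m : ℕ) : ℤ × Kl →+ ZMod m × Kl := (Int.castAddHom (ZMod m)).prodMap (AddMonoidHom.id _)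

theorem red_surj (m : ℕ) : Surjective (red m) := fun ⟨a, k⟩ => by
  obtain ⟨t, rfl⟩ := ZMod.intCast_surjective a
  exact ⟨(t, k), rfl⟩

theorem red_per (m : ℕ) (t : ℤ) (k : Kl) : red m (t + m, k) = red m (t, k) := by
  simp [red]

/-- A periodic good colouring of `ℤ × Kl` with `n` classes. -/
theorem exists_cyl (n : ℕ) (hn : 1 ≤ n) : ∃ c : ℤ × Kl → Fin n, Good c ∧
    ∃ N : ℕ, 0 < N ∧ ∀ t k, c (t + N, k) = c (t, k) := by
  have fin : ∀ {ι : Type} [Finite ι] (c : ℤ × Kl → ι), Nat.card ι = n → Good c →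
      (∃ N : ℕ, 0 < N ∧ ∀ t k, c (t + N, k) = c (t, k)) → ∃ c : ℤ × Kl → Fin n, Good c ∧
        ∃ N : ℕ, 0 < N ∧ ∀ t k, c (t + N, k) = c (t, k) := by
    intro ι _ c h1 h2 ⟨N, h3, h4⟩
    exact ⟨_, good_equiv h2 (h1 ▸ Finite.equivFin ι), N, h3, fun t k => by rw [h4]⟩
  have cyc : ∀ [NeZero n], Good (id : ZMod n → ZMod n) → ∃ c : ℤ × Kl → Fin n, Good c ∧
      ∃ N : ℕ, 0 < N ∧ ∀ t k, c (t + N, k) = c (t, k) := fun h =>
    fin _ (Nat.card_zmod n) (good_comap h ((AddMonoidHom.fst _ _).comp (red n))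
      (Prod.fst_surjective.comp (red_surj n))) ⟨n, hn, fun t k => by
        simp only [AddMonoidHom.comp_apply, red_per]⟩
  have iter : ∀ (m : ℕ), (∃ (ι : Type) (_ : Finite ι) (c : ℤ × Kl → ι), Nat.card ι = m ∧ Mk c) →
      ∀ k, ∃ (ι : Type) (_ : Finite ι) (c : ℤ × Kl → ι), Nat.card ι = m + 2 * k ∧ Mk c := by
    intro m h k
    induction k with
    | zero => exact h
    | succ k ih =>
      obtain ⟨ι, _, c, h1, h2⟩ := ih
      exact ⟨ι ⊕ ZMod 2, inferInstance, st c, by simp [h1]; ring, mk_step h2⟩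
  have k4 : ∀ x : ZMod 2 × ZMod 2 × ZMod 2, col4 x = 0 ↔ x.2 = 0 := by decide +kernel
  have k7 : ∀ x : ZMod 3 × ZMod 2 × ZMod 2, col7 x = 0 ↔ x.2 = 0 := by decide +kernel
  have h4 := iter 4 ⟨Fin 4, inferInstance, fun x => col4 (red 2 x), by simp,
    good_comap marked4.1 _ (red_surj 2), ⟨0, fun x => k4 _⟩, 2, by omega,
    fun t k => congrArg col4 (red_per 2 t k)⟩
  have h7 := iter 7 ⟨Fin 7, inferInstance, fun x => col7 (red 3 x), by simp,
    good_comap marked7.1 _ (red_surj 3), ⟨0, fun x => k7 _⟩, 3, by omega,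
    fun t k => congrArg col7 (red_per 3 t k)⟩
  by_cases h1 : n = 1
  · subst h1; exact cyc good1
  by_cases h2 : n = 2
  · subst h2; exact cyc good2
  by_cases h3 : n = 3
  · subst h3; exact cyc good3
  by_cases h5 : n = 5
  · subst h5; exact cyc good5
  rcases Nat.even_or_odd' n with ⟨k, rfl | rfl⟩
  · obtain ⟨ι, _, c, e, h⟩ := h4 (k - 2)
    exact fin c (by omega) h.1 h.2.2
  · obtain ⟨ι, _, c, e, h⟩ := h7 (k - 3)
    exact fin c (by omega) h.1 h.2.2

/-- A good colouring of `ℤ^d`, `d ≥ 3`, invariant under a subgroup of finite index. -/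
theorem exists_three (d : ℕ) (hd : 3 ≤ d) (n : ℕ) (hn : 1 ≤ n) :
    ∃ (c : (Fin d → ℤ) → Fin n) (K : AddSubgroup (Fin d → ℤ)),
      K.FiniteIndex ∧ Good c ∧ ∀ x, ∀ k ∈ K, c (x + k) = c x := by
  obtain ⟨c, hc, N, hN, hper⟩ := exists_cyl n hn
  obtain ⟨e, rfl⟩ := Nat.exists_eq_add_of_le' hd
  let π : (Fin (e + 3) → ℤ) →+ ℤ × Kl :=
    { toFun := fun x => (x 0, (x 1 : ZMod 2), (x 2 : ZMod 2))
      map_zero' := by simp
      map_add' := fun x y => by simp }
  have hπ : Surjective π := fun ⟨t, a, b⟩ => by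
    obtain ⟨a, rfl⟩ := ZMod.intCast_surjective a
    obtain ⟨b, rfl⟩ := ZMod.intCast_surjective b
    exact ⟨Fin.cons t (Fin.cons a (Fin.cons b 0)), rfl⟩
  have : NeZero N := ⟨hN.ne'⟩
  refine ⟨fun x => c (π x), ((red N).comp π).ker, inferInstance, good_comap hc π hπ,
    fun x k hk => ?_⟩
  have h1 : red N (π k) = 0 := hk
  have h2 : ((π k).1 : ZMod N) = 0 := congrArg Prod.fst h1
  have h3 : (π k).2 = 0 := congrArg Prod.snd h1
  obtain ⟨m, hm⟩ := (ZMod.intCast_zmod_eq_zero_iff_dvd _ _).1 h2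
  have h4 : Periodic (fun t => c (t, (π x).2)) (N : ℤ) := fun t => hper t _
  have e1 : π (x + k) = ((π x).1 + m * N, (π x).2) := by
    rw [map_add]
    exact Prod.ext (by rw [Prod.fst_add, hm, mul_comm]) (by rw [Prod.snd_add, h3, add_zero])
  beta_reduce
  rw [e1]
  exact h4.int_mul m _

end Pool.Agent.Lib.MP_f7d7fe_co
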