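import Mathlib

/-! Four disjoint lattice translates that cover `ℤ^d`, `d ≤ 2`, lie in the cosets of one lattice of
index two or three. -/

namespace Pool.Agent.Lib.MP_f7d7fe_co

open scoped Pointwise

theorem top_of_two {G : Type} [AddCommGroup G] {S : AddSubgroup G} (h4 : ∀ x, 4 • x ∈ S)
    (h2 : ∀ x, ∃ y, x - 2 • y ∈ S) : S = ⊤ := by
  refine eq_top_iff.2 fun x _ => ?_
  obtain ⟨y, hy⟩ := h2 x
  obtain ⟨z, hz⟩ := h2 y
  have := S.add_mem (S.add_mem hy (S.nsmul_mem hz 2)) (h4 z)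
  rwa [show x - 2 • y + 2 • (y - 2 • z) + 4 • z = x by abel] at this

theorem half {d : ℕ} {S : AddSubgroup (Fin d → ℤ)} {x s : Fin d → ℤ} (hs : s ∈ S)
    (h : ∀ i, (x i - s i) % 2 = 0) : ∃ y, x - 2 • y ∈ S := by
  refine ⟨fun i => (x i - s i) / 2, ?_⟩
  convert hs using 1
  ext i
  have := h i
  rw [Pi.sub_apply, Pi.smul_apply, nsmul_eq_mul, Nat.cast_ofNat]
  omega

/-- Lattices containing `4 ℤ^d` with proper pairwise sums lie in one lattice of index two. -/
theorem common_two {d : ℕ} (hd : d ≤ 2) {ι : Type} (i0 : ι) (L : ι → AddSubgroup (Fin d → ℤ))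
    (h4 : ∀ i x, 4 • x ∈ L i) (hne : ∀ i j, L i ⊔ L j ≠ ⊤) :
    ∃ f : (Fin d → ℤ) →+ ZMod 2, (∃ x, f x ≠ 0) ∧ ∀ i, ∀ x ∈ L i, f x = 0 := by
  have hz : ∀ a : ℤ, (a : ZMod 2) ≠ 0 → a % 2 = 1 := fun a h => by
    rw [Ne, ZMod.intCast_zmod_eq_zero_iff_dvd] at h
    push_cast at h
    omega
  let p : Fin d → (Fin d → ℤ) →+ ZMod 2 := fun i =>
    (Int.castAddHom (ZMod 2)).comp (Pi.evalAddMonoidHom (fun _ => ℤ) i)
  have hp : ∀ i x, p i x = (x i : ZMod 2) := fun _ _ => rfl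
  by_contra hh
  push Not at hh
  interval_cases d
  · exact hne i0 i0 (Subsingleton.elim _ _)
  · obtain ⟨i, a, ha, h⟩ := hh (p 0) ⟨fun _ => 1, by simp [hp]⟩
    have h1 := hz (a 0) h
    refine hne i i (top_of_two (fun x => AddSubgroup.mem_sup_left (h4 i x)) fun x => ?_)
    by_cases hx : x 0 % 2 = 0
    · exact half (zero_mem _) (by simpa [Fin.forall_fin_one] using hx)
    · exact half (AddSubgroup.mem_sup_left ha) (Fin.forall_fin_one.2 (by omega))
  · have two : ∀ i j, ∀ a ∈ L i, ∀ b ∈ L j, (a 0 % 2 = 1 ∨ a 1 % 2 = 1) →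
        (b 0 % 2 = 1 ∨ b 1 % 2 = 1) → a 0 % 2 = b 0 % 2 ∧ a 1 % 2 = b 1 % 2 := by
      intro i j a ha b hb h1 h2
      by_contra h3
      refine hne i j (top_of_two (fun x => AddSubgroup.mem_sup_left (h4 i x)) fun x => ?_)
      have ha' : a ∈ L i ⊔ L j := AddSubgroup.mem_sup_left ha
      have hb' : b ∈ L i ⊔ L j := AddSubgroup.mem_sup_right hb
      by_cases e0 : x 0 % 2 = 0 ∧ x 1 % 2 = 0
      · exact half (zero_mem _) (by simpa [Fin.forall_fin_two] using e0)
      by_cases e1 : x 0 % 2 = a 0 % 2 ∧ x 1 % 2 = a 1 % 2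
      · exact half ha' (by rw [Fin.forall_fin_two]; omega)
      by_cases e2 : x 0 % 2 = b 0 % 2 ∧ x 1 % 2 = b 1 % 2
      · exact half hb' (by rw [Fin.forall_fin_two]; omega)
      · exact half (add_mem ha' hb') (by simp only [Fin.forall_fin_two, Pi.add_apply]; omega)
    obtain ⟨i, a, ha, h1⟩ := hh (p 0) ⟨fun _ => 1, by simp [hp]⟩
    obtain ⟨j, b, hb, h2⟩ := hh (p 1) ⟨fun _ => 1, by simp [hp]⟩
    obtain ⟨k, c, hc, h3⟩ := hh (p 0 + p 1) ⟨![1, 0], by simp [hp]⟩
    have h4 := hz (a 0) h1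
    have h5 := hz (b 1) h2
    have h6 := hz (c 0 + c 1) (by simpa [hp] using h3)
    have := two i j a ha b hb (Or.inl h4) (Or.inr h5)
    have := two i k a ha c hc (Or.inl h4) (by omega)
    have := two j k b hb c hc (Or.inr h5) (by omega)
    omega

theorem four_coarse {d : ℕ} (hd : d ≤ 2) (L : Fin 4 → AddSubgroup (Fin d → ℤ))
    (v : Fin 4 → Fin d → ℤ) (hfin : ∀ i, (L i).FiniteIndex)
    (hdis : ∀ i j, i ≠ j → ∀ x, x - v i ∈ L i → x - v j ∉ L j) (hcov : ∀ x, ∃ i, x - v i ∈ L i) :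
    ∃ (Q : Type) (_ : AddCommGroup Q) (_ : Finite Q) (f : (Fin d → ℤ) →+ Q),
      Nat.card Q < 4 ∧ (∃ x, f x ≠ 0) ∧ ∀ i, ∀ x ∈ L i, f x = 0 := by
  have hne : ∀ i j, i ≠ j → L i ⊔ L j ≠ ⊤ := fun i j hij h => by
    obtain ⟨a, ha, b, hb, e⟩ := AddSubgroup.mem_sup.1 (h ▸ AddSubgroup.mem_top (v j - v i))
    refine hdis i j hij (v i + a) (by simpa using ha) ?_
    rw [show v i + a - v j = -b by rw [← sub_eq_zero, ← sub_eq_zero.2 e]; abel]
    exact neg_mem hb
  have hnt : ∀ i, L i ≠ ⊤ := fun i h => by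
    obtain ⟨j, hj⟩ := exists_ne i
    exact hne i j hj.symm (by rw [h, top_sup_eq])
  by_cases h : ∃ i, (L i).index < 4
  · obtain ⟨i, hi⟩ := h
    have := hfin i
    have h0 := this.index_ne_zero
    have h1 : (L i).index ≠ 1 := fun h => hnt i (AddSubgroup.index_eq_one.1 h)
    have hp : (L i).index.Prime := by
      have : (L i).index = 2 ∨ (L i).index = 3 := by omega
      rcases this with h | h <;> rw [h] <;> norm_num
    refine ⟨_ ⧸ L i, inferInstance, inferInstance, QuotientAddGroup.mk' (L i), hi, ?_,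
      fun j x hx => ?_⟩
    · by_contra hh
      push Not at hh
      exact hnt i (eq_top_iff.2 fun x _ => (QuotientAddGroup.eq_zero_iff x).1 (hh x))
    · refine (QuotientAddGroup.eq_zero_iff x).2 ?_
      by_cases hij : i = j
      · exact hij ▸ hx
      have h2 := AddSubgroup.relIndex_mul_index (le_sup_left : L i ≤ L i ⊔ L j)
      rcases (Nat.dvd_prime hp).1 (Dvd.intro _ h2) with h3 | h3
      · exact AddSubgroup.relIndex_eq_one.1 h3 (AddSubgroup.mem_sup_right hx)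
      · rw [h3] at h2
        exact (hne i j hij (AddSubgroup.index_eq_one.1 ((Nat.mul_eq_left h0).1 h2))).elim
  · push Not at h
    have hc : ⋃ i ∈ (Finset.univ : Finset (Fin 4)), v i +ᵥ (L i : Set (Fin d → ℤ)) = Set.univ := by
      refine Set.eq_univ_of_forall fun x => ?_
      obtain ⟨i, hi⟩ := hcov x
      exact Set.mem_biUnion (Finset.mem_coe.2 (Finset.mem_univ i)) ⟨x - v i, hi, by simp⟩
    have hs := AddSubgroup.one_le_sum_inv_index_of_leftCoset_cover hc
    have hle : ∀ i, ((L i).index : ℚ)⁻¹ ≤ 4⁻¹ := fun i =>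
      inv_anti₀ (by norm_num) (by exact_mod_cast h i)
    have h4 : ∀ i, (L i).index = 4 := fun i => by
      by_contra h5
      have h6 : ((L i).index : ℚ)⁻¹ < 4⁻¹ :=
        inv_strictAnti₀ (by norm_num) (by exact_mod_cast lt_of_le_of_ne (h i) (Ne.symm h5))
      have := Finset.sum_lt_sum (s := Finset.univ) (fun j _ => hle j) ⟨i, Finset.mem_univ i, h6⟩
      norm_num at this hs
      linarith
    obtain ⟨f, h1, h2⟩ := common_two hd 0 L (fun i x => h4 i ▸ (L i).nsmul_index_mem x)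
      fun i j => by
        by_cases hij : i = j
        · rw [hij, sup_idem]; exact hnt j
        · exact hne i j hij
    exact ⟨ZMod 2, inferInstance, inferInstance, f, by simp, h1, h2⟩

end Pool.Agent.Lib.MP_f7d7fe_co
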